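import Pool.Agent.Y223.G.Stm
import Pool.Agent.H920R2.Gl4

/-!
# Job G-HASM of project G (helper223): from models to modules (helper246)
-/

set_option autoImplicit false
set_option linter.unusedSectionVars false

namespace Pool.Agent.Y246.G

open Pool.Agent.Y223.G Pool.Agent.H918R2.Quad Pool.Agent.H473R2.Quad

section

variable {O F K : Type} [CommRing O] [IsDomain O] [Field F] [Field K] [Algebra O F] [Algebra F K]
  [Algebra O K] [IsScalarTower O F K]

theorem map_smul' (r : O) (x : F) : algebraMap F K (r • x) = r • algebraMap F K x := by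
  rw [Algebra.smul_def, Algebra.smul_def, map_mul, ← IsScalarTower.algebraMap_apply]

theorem sat_span (M : Submodule O K) (S : Set F) (h : ∀ y ∈ S, algebraMap F K y ∈ sat M) :
    ∀ y ∈ Submodule.span O S, algebraMap F K y ∈ sat M := by
  intro y hy
  induction hy using Submodule.span_induction with
  | mem x hx => exact h x hx
  | zero => exact ⟨1, one_ne_zero, by simp⟩
  | add x y _ _ hx hy =>
    obtain ⟨s, hs, hs'⟩ := hx
    obtain ⟨t, ht, ht'⟩ := hy
    refine ⟨s * t, mul_ne_zero hs ht, ?_⟩
    rw [map_add, smul_add]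
    refine M.add_mem ?_ ?_
    · rw [mul_comm, mul_smul]
      exact M.smul_mem _ hs'
    · rw [mul_smul]
      exact M.smul_mem _ ht'
  | smul r x _ hx =>
    obtain ⟨s, hs, hs'⟩ := hx
    refine ⟨s, hs, ?_⟩
    rw [map_smul', smul_comm]
    exact M.smul_mem _ hs'

theorem toAlg_apply (y : F) : IsScalarTower.toAlgHom O F K y = algebraMap F K y := rfl

/-- the chart in the smaller field -/
theorem map_adjoin {I : Type} (z' : I → F) (z : I → K) (hz : ∀ i, algebraMap F K (z' i) = z i)
    (j : I) : (Algebra.adjoin O (Set.range fun i => z' i / z' j)).map (IsScalarTower.toAlgHom O F K) =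
      Algebra.adjoin O (Set.range fun i => z i / z j) := by
  rw [AlgHom.map_adjoin, ← Set.range_comp]
  congr 2
  funext i
  simp only [Function.comp, toAlg_apply, map_div₀, hz]

end

/-- Job G-HASM. -/
theorem t_HASM : S_HASM := by
  intro O F K _ _ _ _ _ _ _ _ _ hinj P M₀ I _ z J h
  classical
  have hK : ∀ i, ∃ y : F, algebraMap F K y = z i := fun i => h.zK i
  choose z' hz' using hK
  let M : Submodule O F := Submodule.span O (Set.range z')
  have hzM : ∀ i, z' i ∈ M := fun i => Submodule.subset_span ⟨i, rfl⟩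
  obtain ⟨j₀, hj₀, -⟩ := h.cv ⊤ (fun _ => trivial)
  have hz0 : ∀ j ∈ J, z' j ≠ 0 := fun j hj h0 => h.z0 j hj (by rw [← hz', h0, map_zero])
  have hin : ∀ f (i : I), z' i / f ∈ chart O M f := fun f i =>
    Algebra.subset_adjoin ⟨z' i, hzM i, rfl⟩
  have hmapM : ∀ f ∈ M, algebraMap F K f ∈ Submodule.span O (Set.range z) := by
    intro f hf
    have h2 : ((IsScalarTower.toAlgHom O F K).toLinearMap f) ∈
        Submodule.map (IsScalarTower.toAlgHom O F K).toLinearMap M := ⟨f, hf, rfl⟩
    rw [Submodule.map_span, ← Set.range_comp] at h2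
    have e : (IsScalarTower.toAlgHom O F K).toLinearMap ∘ z' = z := by
      funext i
      exact hz' i
    rw [e] at h2
    exact h2
  refine ⟨M, Submodule.fg_span (Set.finite_range _), ⟨z' j₀, hzM j₀, hz0 j₀ hj₀⟩, ?_, ?_, ?_⟩
  · intro f hf hf0 y
    change Fr (chart O M f) y
    have h1 : ∀ x ∈ Algebra.adjoin O (Set.range fun i => z i / z j₀), ∃ y : F,
        algebraMap F K y = x ∧ Fr (chart O M f) y := by
      intro x hx
      induction hx using Algebra.adjoin_induction with
      | mem x hx =>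
        obtain ⟨i, rfl⟩ := hx
        refine ⟨(z' i / f) / (z' j₀ / f), ?_, (Fr.of_mem (hin f i)).div (Fr.of_mem (hin f j₀))⟩
        have e1 : (z' i / f) / (z' j₀ / f) = z' i / z' j₀ := by
          have := hz0 j₀ hj₀
          field_simp
        rw [e1, map_div₀, hz', hz']
      | algebraMap r =>
        exact ⟨algebraMap O F r, (IsScalarTower.algebraMap_apply O F K r).symm,
          Fr.of_mem (Subalgebra.algebraMap_mem _ _)⟩
      | add x y _ _ hx hy =>
        obtain ⟨x', rfl, hx'⟩ := hx
        obtain ⟨y', rfl, hy'⟩ := hy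
        exact ⟨x' + y', map_add _ _ _, hx'.add hy'⟩
      | mul x y _ _ hx hy =>
        obtain ⟨x', rfl, hx'⟩ := hx
        obtain ⟨y', rfl, hy'⟩ := hy
        exact ⟨x' * y', map_mul _ _ _, hx'.mul hy'⟩
    obtain ⟨w, hw, w', hw', hw0, hyw⟩ := h.fr j₀ hj₀ (algebraMap F K y) ⟨y, rfl⟩
    obtain ⟨u, rfl, hu⟩ := h1 w hw
    obtain ⟨u', rfl, hu'⟩ := h1 w' hw'
    have e2 : y = u / u' := (algebraMap F K).injective (by rw [map_div₀]; exact hyw)
    rw [e2]
    exact hu.div hu'
  · intro f hf hf0 q hq
    obtain ⟨𝒪, hloc, hmem, hU, hreg⟩ := exists_loc (chart O M f).val.toRingHom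
      Subtype.val_injective q
    apply hreg
    obtain ⟨V, hV, hV2⟩ := Pool.Agent.H920R2.exists_dom (algebraMap F K) 𝒪 hloc
    have hch : ∀ x ∈ chart O M f, x ∈ 𝒪 := fun x hx =>
      (hmem x).2 ⟨⟨x, hx⟩, 1, (Ideal.ne_top_iff_one q).1 Ideal.IsPrime.ne_top', by simp⟩
    have hk : ∀ c : O, algebraMap O F c ∈ 𝒪 := fun c => hch _ (Subalgebra.algebraMap_mem _ c)
    have hkV : ∀ c : O, algebraMap O K c ∈ V := fun c => by
      rw [IsScalarTower.algebraMap_apply O F K]
      exact hV _ (hk c)
    obtain ⟨j, hj, hjV⟩ := h.cv V hkV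
    have hfV : algebraMap F K f / z j ∈ V := by
      have h1 := mem_of_span (F := K) (R := O) (𝒪 := V.toSubring) hkV
        (Set.range z) (z j) (by rintro _ ⟨i, rfl⟩; exact hjV i) (algebraMap F K f)
      exact h1 (hmapM f hf)
    have hUj : U 𝒪 (z' j / f) := by
      refine hV2 _ (hch _ (hin f j)) (div_ne_zero (hz0 j hj) hf0) ?_
      have e1 : (algebraMap F K (z' j / f))⁻¹ = algebraMap F K f / z j := by
        rw [map_div₀, inv_div, hz']
      rw [e1]
      exact hfV
    let Aj : Subalgebra O F := Algebra.adjoin O (Set.range fun i => z' i / z' j)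
    have hAj : ∀ w : Aj, (w : F) ∈ 𝒪 := by
      rintro ⟨w, hw⟩
      change w ∈ 𝒪
      induction hw using Algebra.adjoin_induction with
      | mem x hx =>
        obtain ⟨i, rfl⟩ := hx
        have e1 : z' i / z' j = (z' i / f) * (z' j / f)⁻¹ := by
          have := hz0 j hj
          field_simp
        change z' i / z' j ∈ 𝒪
        rw [e1]
        exact 𝒪.mul_mem (hch _ (hin f i)) hUj.2.2
      | algebraMap r => exact hk r
      | add x y _ _ hx hy => exact 𝒪.add_mem hx hy
      | mul x y _ _ hx hy => exact 𝒪.mul_mem hx hy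
    have hrg : IsRegularRing Aj := by
      have e2 : Aj ≃ₐ[O] Algebra.adjoin O (Set.range fun i => z i / z j) :=
        (Subalgebra.equivMapOfInjective Aj (IsScalarTower.toAlgHom O F K)
          (algebraMap F K).injective).trans
          (Subalgebra.equivOfEq _ _ (map_adjoin z' z hz' j))
      have := h.rg j hj
      exact IsRegularRing.of_ringEquiv e2.symm.toRingEquiv
    have hfrac := frac_of_chart (𝒪 := 𝒪) Aj.val hAj (Set.range z') f (z' j) (hz0 j hj)
      (by
        rintro _ ⟨i, rfl⟩
        refine ⟨⟨z' i / z' j, Algebra.subset_adjoin ⟨i, rfl⟩⟩, ?_⟩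
        change z' i = z' j * (z' i / z' j)
        have := hz0 j hj
        field_simp) hf (by
        have := hUj.inv
        rwa [inv_div] at this) ⟨hch, by
        intro x hx
        obtain ⟨a, b, hb, rfl⟩ := (hmem x).1 hx
        exact ⟨a, a.2, b, b.2, (hU b).2 hb, rfl⟩⟩
    have hprime : (primeOf hloc Aj.val.toRingHom hAj).IsPrime :=
      primeOf_isPrime hloc Aj.val.toRingHom hAj
    have hmem' : ∀ x, x ∈ 𝒪 ↔ ∃ a b : Aj, b ∉ primeOf hloc Aj.val.toRingHom hAj ∧
        x = Aj.val.toRingHom a / Aj.val.toRingHom b := by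
      intro x
      constructor
      · intro hx
        obtain ⟨a, b, hb0, hb, rfl⟩ := hfrac x hx
        refine ⟨a, b, ?_, rfl⟩
        intro hc
        exact hc ⟨hb0, hAj b, hb⟩
      · rintro ⟨a, b, hb, rfl⟩
        have hb' : U 𝒪 (Aj.val.toRingHom b) := not_not.1 hb
        rw [div_eq_mul_inv]
        exact 𝒪.mul_mem (hAj a) hb'.2.2
    exact reg_of_loc Aj.val.toRingHom Subtype.val_injective
      (primeOf hloc Aj.val.toRingHom hAj) 𝒪 hmem' inferInstance
  · intro hP
    obtain ⟨n, hn, h1, h2⟩ := h.mo hP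
    refine ⟨n, hn, ?_, ?_⟩
    · refine sat_span (M₀ ^ n) (Set.range z') ?_
      rintro _ ⟨i, rfl⟩
      rw [hz']
      exact h1 i
    · intro y hy
      obtain ⟨s, hs, hs'⟩ := h2 _ hy
      refine ⟨s, hs, ?_⟩
      have e : (IsScalarTower.toAlgHom O F K).toLinearMap ∘ z' = z := by
        funext i
        exact hz' i
      have h3 : s • algebraMap F K y ∈
          Submodule.map (IsScalarTower.toAlgHom O F K).toLinearMap M := by
        rw [Submodule.map_span, ← Set.range_comp, e]
        exact hs'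
      obtain ⟨w, hw, hw'⟩ := h3
      have h4 : algebraMap F K w = algebraMap F K (s • y) := by
        rw [map_smul']
        exact hw'
      rw [← (algebraMap F K).injective h4]
      exact hw

end Pool.Agent.Y246.G
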